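import Pool.Agent.H2.ST.Targets

/-!
Symplectic torus actions: divisibility of homogeneous elements, up to a unit of the local ring.
-/

set_option autoImplicit false

namespace Pool.Agent.H11.ST2

open Pool.Agent.H2.ST MvPolynomial

section

variable {k Γ : Type} [Field k] [AddCommGroup Γ] {m : ℕ} {W : Γ → Submodule k (Pol k m)}
  {y : Fin m ⊕ Fin m → Pol k m} {w : Fin m → Γ}

/-- monomials in the coordinates are homogeneous -/
lemma mon_mem (h : Gr W) (hA : Ada W y w) (α : Fin m ⊕ Fin m →₀ ℕ) (c : k) :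
    aeval y (monomial α c) ∈ W (wtm w α) := by
  classical
  have h1 : ∀ s : Fin m ⊕ Fin m, y s ∈ W (Sum.elim w (fun i => - w i) s) := by
    intro s
    rcases s with i | i
    · exact hA.hl i
    · exact hA.hr i
  have h2 : (∏ s, y s ^ α s) ∈ W (∑ s, α s • Sum.elim w (fun i => - w i) s) :=
    prod_mem_gr h _ _ _ fun s _ => pow_mem_gr h (h1 s) _
  have h3 : (∑ s, α s • Sum.elim w (fun i => - w i) s) = wtm w α := by
    rw [Fintype.sum_sum_type, wtm, ← Finset.sum_add_distrib]
    refine Finset.sum_congr rfl fun i _ => ?_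
    rw [Sum.elim_inl, Sum.elim_inr, sub_smul, natCast_zsmul, natCast_zsmul, smul_neg,
      sub_eq_add_neg]
  rw [h3] at h2
  rw [aeval_monomial, Finsupp.prod_fintype _ _ (fun i => pow_zero _)]
  have h4 := mul_mem_gr h (algebraMap_mem_gr h c) h2
  rwa [zero_add] at h4

/-- the component of weight `χ` of a polynomial in the coordinates -/
lemma cmp_aeval (h : Gr W) (hA : Ada W y w) (χ : Γ) (P : Pol k m) :
    ∃ P' : Pol k m, cmp h (aeval y P) χ = aeval y P' ∧ ∀ α ∈ P'.support, wtm w α = χ := by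
  classical
  refine ⟨∑ α ∈ P.support with wtm w α = χ, monomial α (coeff α P), ?_, ?_⟩
  · conv_lhs => rw [P.as_sum]
    rw [map_sum, map_sum, map_sum, Finsupp.finsetSum_apply, Finset.sum_filter]
    refine Finset.sum_congr rfl fun α _ => ?_
    rw [cmp_of_mem h (mon_mem h hA α _), Finsupp.single_apply]
  · intro α hα
    by_contra hne
    rw [mem_support_iff, coeff_sum] at hα
    apply hα
    refine Finset.sum_eq_zero fun β hβ => ?_
    rw [Finset.mem_filter] at hβ
    rw [coeff_monomial, if_neg]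
    intro h5
    rw [h5] at hβ
    exact hne hβ.2

end

theorem pf_KRL (h1 : T_STB) (h2 : T_GEN) : T_KRL := by
  classical
  intro k _ m Γ _ W y w hP hA χ f hf
  have key : ∀ N : ℕ, ∃ P : Pol k m, f - aeval y P ∈ (mo k m) ^ N ∧
      ∀ α ∈ P.support, wtm w α = χ := by
    intro N
    obtain ⟨P, hP1⟩ := (h2 k m Γ W y w hA).2 N f
    have h3 := h1 k m Γ W hP N _ hP1 χ
    obtain ⟨P', h4, h5⟩ := cmp_aeval hP.toGr hA χ P
    refine ⟨P', ?_, h5⟩
    rw [map_sub, Finsupp.sub_apply, h4, cmp_of_mem hP.toGr hf, Finsupp.single_eq_same] at h3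
    exact h3
  refine ⟨fun h => ?_, fun s0 n h => ?_⟩
  · have h3 : ∀ N : ℕ, f ∈ (mo k m) ^ N := by
      intro N
      obtain ⟨P, h4, h5⟩ := key N
      have h6 : P = 0 := by
        by_contra hne
        obtain ⟨α, hα⟩ := (ne_zero_iff.1 hne)
        exact h α (h5 α (mem_support_iff.2 hα))
      rw [h6, map_zero, sub_zero] at h4
      exact h4
    have h4 : mo k m ≠ ⊤ := by
      intro h5
      have h6 : (1 : Pol k m) ∈ mo k m := by rw [h5]; trivial
      rw [RingHom.mem_ker, map_one] at h6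
      exact one_ne_zero h6
    have h5 := Ideal.iInf_pow_eq_bot_of_isDomain (mo k m) h4
    have h6 : f ∈ (⨅ i : ℕ, (mo k m) ^ i) := by
      rw [Ideal.mem_iInf]
      exact h3
    rw [h5] at h6
    exact h6
  · have h3 : ∀ N : ℕ, ∃ g : Pol k m, f - y s0 ^ n * g ∈ (mo k m) ^ N := by
      intro N
      obtain ⟨P, h4, h5⟩ := key N
      have h6 : y s0 ^ n ∣ aeval y P := by
        rw [P.as_sum, map_sum]
        refine Finset.dvd_sum fun α hα => ?_
        rw [aeval_monomial, Finsupp.prod_fintype _ _ (fun i => pow_zero _)]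
        refine Dvd.dvd.mul_left ?_ _
        exact (pow_dvd_pow _ (h α (h5 α hα))).trans (Finset.dvd_prod_of_mem _ (Finset.mem_univ s0))
      obtain ⟨g, hg⟩ := h6
      exact ⟨g, by rwa [← hg]⟩
    let J : Ideal (Pol k m) := Ideal.span {y s0 ^ n}
    have h4 : (Submodule.Quotient.mk f : Pol k m ⧸ J) ∈
        (⨅ i : ℕ, (mo k m) ^ i • (⊤ : Submodule (Pol k m) (Pol k m ⧸ J))) := by
      rw [Submodule.mem_iInf]
      intro N
      obtain ⟨g, hg⟩ := h3 N
      have h5 : (Submodule.Quotient.mk f : Pol k m ⧸ J) =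
          (f - y s0 ^ n * g) • (Submodule.Quotient.mk 1 : Pol k m ⧸ J) := by
        rw [← Submodule.Quotient.mk_smul, smul_eq_mul, mul_one, Submodule.Quotient.eq]
        have h6 : f - (f - y s0 ^ n * g) = y s0 ^ n * g := by ring
        rw [h6]
        exact Ideal.mul_mem_right _ _ (Ideal.subset_span rfl)
      rw [h5]
      exact Submodule.smul_mem_smul hg trivial
    rw [Ideal.mem_iInf_smul_pow_eq_bot_iff] at h4
    obtain ⟨r, hr⟩ := h4
    refine ⟨1 - r.1, ?_, ?_⟩
    · have h5 : constantCoeff r.1 = 0 := r.2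
      rw [map_sub, map_one, h5, sub_zero]
      exact one_ne_zero
    · rw [← Submodule.Quotient.mk_smul, Submodule.Quotient.eq, smul_eq_mul] at hr
      have h6 : (1 - r.1) * f = -(r.1 * f - f) := by ring
      rw [h6, dvd_neg]
      exact Ideal.mem_span_singleton.1 hr

end Pool.Agent.H11.ST2
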